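import Mathlib

set_option autoImplicit false

namespace Pool.Agent.Helper606.BlockGraph

open Finset

/-- Vertices: small vertices (side, copy, block, index), big vertices (copy, left block,
right block), and isolated vertices. -/
abbrev Vx (t q c r : ℕ) : Type :=
  (Bool × Fin t × Fin q × Fin c) ⊕ ((Fin t × Fin q × Fin q) ⊕ Fin r)

/-- The block number of a big vertex on a side. -/
def blk {q : ℕ} (s : Bool) (a b : Fin q) : Fin q := if s then b else a

/-- Adjacency. -/
def adj {t q c r : ℕ} : Vx t q c r → Vx t q c r → Prop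
  | Sum.inl (s, τ, a, i), Sum.inl (s', τ', a', i') => s = s' ∧ τ = τ' ∧ a = a' ∧ i ≠ i'
  | Sum.inl (s, τ, a, _), Sum.inr (Sum.inl (τ', a', b')) => τ = τ' ∧ blk s a' b' = a
  | Sum.inr (Sum.inl (τ', a', b')), Sum.inl (s, τ, a, _) => τ = τ' ∧ blk s a' b' = a
  | _, _ => False

/-- The block graph. -/
def BG (t q c r : ℕ) : SimpleGraph (Vx t q c r) where
  Adj := adj
  symm := ⟨by
    rintro (⟨s, τ, a, i⟩ | ⟨τ, a, b⟩ | j) (⟨s', τ', a', i'⟩ | ⟨τ', a', b'⟩ | j') h
    · exact ⟨h.1.symm, h.2.1.symm, h.2.2.1.symm, h.2.2.2.symm⟩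
    · exact h
    · exact h
    · exact h
    · exact h
    · exact h
    · exact h
    · exact h
    · exact h⟩
  loopless := ⟨by
    rintro (⟨s, τ, a, i⟩ | ⟨τ, a, b⟩ | j) h
    · exact h.2.2.2 rfl
    · exact h
    · exact h⟩

variable {t q c r : ℕ}

/-- Neighbours of a small vertex. -/
def nbS (s : Bool) (τ : Fin t) (a : Fin q) (i : Fin c) : Finset (Vx t q c r) :=
  ((Finset.univ.erase i).image (fun j => Sum.inl (s, τ, a, j))) ∪
    ((Finset.univ : Finset (Fin q)).image
      (fun b => Sum.inr (Sum.inl (τ, (if s then b else a), (if s then a else b)))))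

/-- Neighbours of a big vertex. -/
def nbB (τ : Fin t) (a b : Fin q) : Finset (Vx t q c r) :=
  (Finset.univ : Finset (Bool × Fin c)).image (fun p => Sum.inl (p.1, τ, blk p.1 a b, p.2))

lemma mem_nbS (s : Bool) (τ : Fin t) (a : Fin q) (i : Fin c) (v : Vx t q c r) :
    v ∈ nbS s τ a i ↔ (BG t q c r).Adj (Sum.inl (s, τ, a, i)) v := by
  rcases v with ⟨s', τ', a', i'⟩ | ⟨τ', a', b'⟩ | j
  · simp only [nbS, mem_union, mem_image, mem_erase, mem_univ, and_true, true_and]
    constructor
    · rintro (⟨j, hj, h⟩ | ⟨b, h⟩)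
      · simp only [Sum.inl.injEq, Prod.mk.injEq] at h
        obtain ⟨h1, h2, h3, h4⟩ := h
        subst h1; subst h2; subst h3; subst h4
        exact ⟨rfl, rfl, rfl, fun h => hj h.symm⟩
      · simp at h
    · rintro ⟨h1, h2, h3, h4⟩
      subst h1; subst h2; subst h3
      exact Or.inl ⟨i', fun h => h4 h.symm, rfl⟩
  · simp only [nbS, mem_union, mem_image, mem_erase, mem_univ, and_true, true_and]
    constructor
    · rintro (⟨j, hj, h⟩ | ⟨b, h⟩)
      · simp at h
      · simp only [Sum.inr.injEq, Sum.inl.injEq, Prod.mk.injEq] at h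
        obtain ⟨h1, h2, h3⟩ := h
        refine ⟨h1, ?_⟩
        cases s
        · simp only [blk] at *; simpa using h2.symm
        · simp only [blk] at *; simpa using h3.symm
    · rintro ⟨h1, h2⟩
      subst h1
      right
      cases s
      · simp only [blk, Bool.false_eq_true, if_false] at h2
        exact ⟨b', by simp [h2]⟩
      · simp only [blk, if_true] at h2
        exact ⟨a', by simp [h2]⟩
  · simp only [nbS, mem_union, mem_image, mem_erase, mem_univ, and_true, true_and]
    constructor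
    · rintro (⟨j, hj, h⟩ | ⟨b, h⟩) <;> simp at h
    · intro h
      exact absurd h id

lemma mem_nbB (τ : Fin t) (a b : Fin q) (v : Vx t q c r) :
    v ∈ nbB τ a b ↔ (BG t q c r).Adj (Sum.inr (Sum.inl (τ, a, b))) v := by
  rcases v with ⟨s', τ', a', i'⟩ | ⟨τ', a', b'⟩ | j
  · simp only [nbB, mem_image, mem_univ, true_and, Prod.exists]
    constructor
    · rintro ⟨s, i, h⟩
      simp only [Sum.inl.injEq, Prod.mk.injEq] at h
      obtain ⟨h1, h2, h3, h4⟩ := h
      subst h1
      exact ⟨h2.symm, h3⟩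
    · rintro ⟨h1, h2⟩
      subst h1
      exact ⟨s', i', by rw [h2]⟩
  · simp only [nbB, mem_image, mem_univ, true_and, Prod.exists]
    constructor
    · rintro ⟨s, i, h⟩
      simp at h
    · intro h
      exact absurd h id
  · simp only [nbB, mem_image, mem_univ, true_and, Prod.exists]
    constructor
    · rintro ⟨s, i, h⟩
      simp at h
    · intro h
      exact absurd h id

lemma card_nbS (s : Bool) (τ : Fin t) (a : Fin q) (i : Fin c) :
    (nbS s τ a i : Finset (Vx t q c r)).card = (c - 1) + q := by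
  unfold nbS
  rw [card_union_of_disjoint, card_image_of_injective, card_image_of_injective,
    card_erase_of_mem (mem_univ i), card_univ, card_univ, Fintype.card_fin, Fintype.card_fin]
  · intro b b' h
    cases s <;> simpa using h
  · intro b b' h
    simpa using h
  · rw [Finset.disjoint_left]
    intro v h1 h2
    rw [mem_image] at h1 h2
    obtain ⟨j, _, rfl⟩ := h1
    obtain ⟨b, _, h⟩ := h2
    simp at h

lemma card_nbB (τ : Fin t) (a b : Fin q) :
    (nbB τ a b : Finset (Vx t q c r)).card = 2 * c := by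
  unfold nbB
  rw [card_image_of_injective, card_univ, Fintype.card_prod, Fintype.card_bool, Fintype.card_fin]
  rintro ⟨s, i⟩ ⟨s', i'⟩ h
  simp only [Sum.inl.injEq, Prod.mk.injEq] at h
  exact Prod.ext h.1 h.2.2.2

lemma card_Vx : Fintype.card (Vx t q c r) = t * (q * (2 * c + q)) + r := by
  simp only [Fintype.card_sum, Fintype.card_prod, Fintype.card_bool, Fintype.card_fin]
  ring

lemma edges (t q c r : ℕ) :
    2 * (BG t q c r).edgeSet.ncard = t * (q * (2 * c * ((c - 1) + q) + q * (2 * c))) := by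
  classical
  have h := (BG t q c r).sum_degrees_eq_twice_card_edges
  have h2 : (BG t q c r).edgeSet.ncard = (BG t q c r).edgeFinset.card := by
    rw [← SimpleGraph.coe_edgeFinset, Set.ncard_coe_finset]
  rw [h2, ← h, Fintype.sum_sum_type, Fintype.sum_sum_type]
  have e1 : ∀ x : Bool × Fin t × Fin q × Fin c,
      (BG t q c r).degree (Sum.inl x) = (c - 1) + q := by
    rintro ⟨s, τ, a, i⟩
    rw [← SimpleGraph.card_neighborFinset_eq_degree, ← card_nbS (r := r) s τ a i]
    congr 1
    ext v
    rw [SimpleGraph.mem_neighborFinset, mem_nbS]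
  have e2 : ∀ x : Fin t × Fin q × Fin q,
      (BG t q c r).degree (Sum.inr (Sum.inl x)) = 2 * c := by
    rintro ⟨τ, a, b⟩
    rw [← SimpleGraph.card_neighborFinset_eq_degree, ← card_nbB (r := r) (c := c) τ a b]
    congr 1
    ext v
    rw [SimpleGraph.mem_neighborFinset, mem_nbB]
  have e3 : ∀ x : Fin r, (BG t q c r).degree (Sum.inr (Sum.inr x)) = 0 := by
    intro x
    rw [← SimpleGraph.card_neighborFinset_eq_degree, card_eq_zero]
    ext v
    rw [SimpleGraph.mem_neighborFinset]
    constructor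
    · intro h
      rcases v with ⟨s', τ', a', i'⟩ | ⟨τ', a', b'⟩ | j <;> exact absurd h id
    · intro h; simp at h
  rw [Finset.sum_congr rfl (fun x _ => e1 x), Finset.sum_congr rfl (fun x _ => e2 x),
    Finset.sum_congr rfl (fun x _ => e3 x)]
  simp only [sum_const, card_univ, Fintype.card_prod, Fintype.card_bool, Fintype.card_fin,
    smul_eq_mul, mul_zero, add_zero]
  ring

/-- For two distinct big vertices there is a side on which their blocks differ, and the
corresponding pocket of the first one has a small boundary avoiding the second one. -/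
lemma big_sep (τ : Fin t) (a b : Fin q) (τ' : Fin t) (a' b' : Fin q)
    (hne : (τ, a, b) ≠ (τ', a', b')) :
    ∃ A S : Finset (Vx t q c r), Sum.inr (Sum.inl (τ, a, b)) ∈ A ∧
      Sum.inr (Sum.inl (τ', a', b')) ∉ A ∧ Disjoint A S ∧
      Sum.inr (Sum.inl (τ', a', b')) ∉ S ∧ S.card ≤ c + (q - 1) ∧
      ∀ u ∈ A, ∀ v, (BG t q c r).Adj u v → v ∈ A ∨ v ∈ S := by
  classical
  -- the side on which the blocks differ (or the copies differ)
  obtain ⟨s, hs⟩ : ∃ s : Bool, (τ, blk s a b) ≠ (τ', blk s a' b') := by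
    by_contra hcon
    push Not at hcon
    apply hne
    have h1 := hcon false
    have h2 := hcon true
    simp only [blk, Prod.mk.injEq, Bool.false_eq_true, if_false, if_true] at h1 h2
    rw [h1.1, h1.2, h2.2]
  -- pocket: the vertex together with its block on side s
  refine ⟨insert (Sum.inr (Sum.inl (τ, a, b)))
      ((Finset.univ : Finset (Fin c)).image (fun i => Sum.inl (s, τ, blk s a b, i))),
    ((Finset.univ : Finset (Fin c)).image (fun i => Sum.inl (!s, τ, blk (!s) a b, i))) ∪
      ((Finset.univ.erase (blk (!s) a b)).image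
        (fun d => Sum.inr (Sum.inl (τ, (if s then d else a), (if s then b else d))))),
    mem_insert_self _ _, ?_, ?_, ?_, ?_, ?_⟩
  · rw [mem_insert, mem_image]
    rintro (h | ⟨i, _, h⟩)
    · simp only [Sum.inr.injEq, Sum.inl.injEq] at h
      exact hne h.symm
    · simp at h
  · rw [Finset.disjoint_left]
    intro v h1 h2
    rw [mem_insert, mem_image] at h1
    rw [mem_union, mem_image, mem_image] at h2
    rcases h1 with h1 | ⟨i, _, h1⟩
    · rcases h2 with ⟨j, _, h2⟩ | ⟨d, hd, h2⟩
      · rw [h1] at h2; simp at h2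
      · rw [h1] at h2
        rw [mem_erase] at hd
        simp only [Sum.inr.injEq, Sum.inl.injEq, Prod.mk.injEq, true_and] at h2
        apply hd.1
        cases s
        · simp only [blk, Bool.false_eq_true, if_false, Bool.not_false, if_true] at *
          exact h2.2
        · simp only [blk, Bool.false_eq_true, if_false, Bool.not_true, if_true] at *
          exact h2.1
    · rcases h2 with ⟨j, _, h2⟩ | ⟨d, hd, h2⟩
      · rw [← h1] at h2
        simp only [Sum.inl.injEq, Prod.mk.injEq] at h2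
        cases s <;> simp at h2
      · rw [← h1] at h2; simp at h2
  · rw [mem_union, mem_image, mem_image]
    rintro (⟨j, _, h⟩ | ⟨d, hd, h⟩)
    · simp at h
    · simp only [Sum.inr.injEq, Sum.inl.injEq, Prod.mk.injEq] at h
      apply hs
      obtain ⟨h1, h2, h3⟩ := h
      subst h1
      cases s
      · simp only [blk, Bool.false_eq_true, if_false] at *
        rw [h2]
      · simp only [blk, if_true] at *
        rw [h3]
  · refine (card_union_le _ _).trans ?_
    apply add_le_add
    · refine card_image_le.trans ?_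
      rw [card_univ, Fintype.card_fin]
    · refine card_image_le.trans ?_
      rw [card_erase_of_mem (mem_univ _), card_univ, Fintype.card_fin]
  · intro u hu v huv
    rw [mem_insert, mem_image] at hu
    rcases hu with rfl | ⟨i, _, rfl⟩
    · rw [← mem_nbB, nbB, mem_image] at huv
      obtain ⟨⟨s', j⟩, _, rfl⟩ := huv
      by_cases hss : s' = s
      · subst hss
        left
        rw [mem_insert, mem_image]
        right
        exact ⟨j, mem_univ _, rfl⟩
      · right
        have hs' : s' = !s := by cases s <;> cases s' <;> simp_all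
        subst hs'
        rw [mem_union, mem_image]
        left
        exact ⟨j, mem_univ _, rfl⟩
    · rcases v with ⟨s', τ'', a'', i'⟩ | ⟨τ'', a'', b''⟩ | j
      · obtain ⟨h1, h2, h3, _⟩ := huv
        left
        subst h1; subst h2; subst h3
        rw [mem_insert, mem_image]
        right
        exact ⟨i', mem_univ _, rfl⟩
      · obtain ⟨h1, h2⟩ := huv
        subst h1
        by_cases hab : blk (!s) a'' b'' = blk (!s) a b
        · left
          rw [mem_insert]
          left
          cases s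
          · simp only [blk, Bool.false_eq_true, if_false, Bool.not_false, if_true] at *
            rw [h2, hab]
          · simp only [blk, Bool.false_eq_true, if_false, Bool.not_true, if_true] at *
            rw [h2, hab]
        · right
          rw [mem_union, mem_image, mem_image]
          right
          refine ⟨blk (!s) a'' b'', mem_erase.2 ⟨hab, mem_univ _⟩, ?_⟩
          cases s
          · simp only [blk, Bool.false_eq_true, if_false, Bool.not_false, if_true] at *
            rw [h2]
          · simp only [blk, Bool.false_eq_true, if_false, Bool.not_true, if_true] at *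
            rw [h2]
      · exact absurd huv id

/-- The numerical choice of the parameter `q`. -/
lemma exists_q (k : ℕ) (hk : 1 ≤ k) : ∃ q : ℕ, 1 ≤ q ∧ q ≤ k ∧ (2 ≤ k → q + 1 ≤ k) ∧
    (4 - 2 * Real.sqrt 3) * k * (2 * k + 2 - q) ≤ ((k : ℝ) + 1 - q) * (k + q) := by
  have h3 : Real.sqrt 3 ^ 2 = 3 := Real.sq_sqrt (by norm_num)
  have h3a : (1.7 : ℝ) < Real.sqrt 3 := by
    rw [show (1.7 : ℝ) = Real.sqrt (1.7 ^ 2) by rw [Real.sqrt_sq (by norm_num)]]
    exact Real.sqrt_lt_sqrt (by norm_num) (by norm_num)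
  have h3b : Real.sqrt 3 < 2 := by
    rw [show (2 : ℝ) = Real.sqrt (2 ^ 2) by rw [Real.sqrt_sq (by norm_num)]]
    exact Real.sqrt_lt_sqrt (by norm_num) (by norm_num)
  have hk' : (1 : ℝ) ≤ k := by exact_mod_cast hk
  set s : ℝ := 2 - Real.sqrt 3 with hs
  have hs0 : 0 < s := by linarith
  have hs1 : s < 0.3 := by linarith
  have hss : s ^ 2 = 4 * s - 1 := by rw [hs]; nlinarith
  have hu0 : 0 ≤ s * k := by positivity
  have hf1 := Nat.floor_le hu0
  have hf2 := Nat.lt_floor_add_one (s * k)
  refine ⟨⌊s * k⌋₊ + 1, by omega, ?_, ?_, ?_⟩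
  · have : (⌊s * k⌋₊ : ℝ) < k := by nlinarith
    have : ⌊s * k⌋₊ < k := by exact_mod_cast this
    omega
  · intro hk2
    have hk2' : (2 : ℝ) ≤ k := by exact_mod_cast hk2
    have : (⌊s * k⌋₊ : ℝ) < k - 1 := by nlinarith
    have : (⌊s * k⌋₊ : ℝ) + 1 < k := by linarith
    have : ⌊s * k⌋₊ + 1 < k := by exact_mod_cast this
    omega
  · push_cast
    set f : ℝ := (⌊s * k⌋₊ : ℝ)
    obtain ⟨θ, hθ⟩ : ∃ θ : ℝ, f + 1 = s * k + θ := ⟨f + 1 - s * k, by ring⟩
    have hθ0 : 0 < θ := by linarith
    have hθ1 : θ ≤ 1 := by linarith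
    rw [hθ, show (4 - 2 * Real.sqrt 3) = 2 * s by rw [hs]; ring]
    have e : ((k : ℝ) + 1 - (s * k + θ)) * (k + (s * k + θ)) -
        2 * s * k * (2 * k + 2 - (s * k + θ)) =
        (k : ℝ) ^ 2 * (1 + s ^ 2 - 4 * s) + k * (1 - 3 * s) + (θ - θ ^ 2) := by ring
    have e1 : (k : ℝ) ^ 2 * (1 + s ^ 2 - 4 * s) = 0 := by rw [hss]; ring
    have e2 : 0 ≤ (k : ℝ) * (1 - 3 * s) := by
      apply mul_nonneg (by linarith); linarith
    have e3 : 0 ≤ θ - θ ^ 2 := by nlinarith
    linarith

/-- Parameters for every order `n`, with the edge count. -/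
lemma exists_params (k n : ℕ) (hk : 1 ≤ k) : ∃ t q c r : ℕ, 1 ≤ q ∧ 1 ≤ c ∧ c + q = k + 1 ∧
    (2 ≤ c ∨ (c = 1 ∧ k = 1)) ∧ Fintype.card (Vx t q c r) = n ∧
    (4 - 2 * Real.sqrt 3) * k * n - 2 * k ^ 3 ≤ ((BG t q c r).edgeSet.ncard : ℝ) ∧
    (t = 0 → (4 - 2 * Real.sqrt 3) * k * n - 2 * k ^ 3 ≤ 0) := by
  obtain ⟨q, hq1, hqk, hqk2, hq⟩ := exists_q k hk
  obtain ⟨c, hc⟩ : ∃ c, c + q = k + 1 := ⟨k + 1 - q, by omega⟩
  have hc1 : 1 ≤ c := by omega
  set N := q * (2 * c + q) with hN
  have hNpos : 0 < N := by positivity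
  refine ⟨n / N, q, c, n % N, hq1, hc1, hc, by omega, ?_, ?_⟩
  · rw [card_Vx, ← hN, mul_comm]
    exact Nat.div_add_mod n N
  · have h3a : (1.7 : ℝ) < Real.sqrt 3 := by
      rw [show (1.7 : ℝ) = Real.sqrt (1.7 ^ 2) by rw [Real.sqrt_sq (by norm_num)]]
      exact Real.sqrt_lt_sqrt (by norm_num) (by norm_num)
    have h3b : Real.sqrt 3 < 2 := by
      rw [show (2 : ℝ) = Real.sqrt (2 ^ 2) by rw [Real.sqrt_sq (by norm_num)]]
      exact Real.sqrt_lt_sqrt (by norm_num) (by norm_num)
    have he := edges (n / N) q c (n % N)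
    have he' : (BG (n / N) q c (n % N)).edgeSet.ncard = (n / N) * (q * (c * (k + q))) := by
      have h1 : (c - 1) + q = k := by omega
      rw [h1] at he
      have : 2 * (BG (n / N) q c (n % N)).edgeSet.ncard
          = 2 * ((n / N) * (q * (c * (k + q)))) := by
        rw [he]; ring
      omega
    rw [he']
    have hcr : (c : ℝ) = k + 1 - q := by
      have : (c : ℝ) + q = k + 1 := by exact_mod_cast hc
      linarith
    have hNr : (N : ℝ) = q * (2 * k + 2 - q) := by
      rw [hN]; push_cast; rw [hcr]; ring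
    have hk' : (1 : ℝ) ≤ k := by exact_mod_cast hk
    have hqr : (1 : ℝ) ≤ q := by exact_mod_cast hq1
    have hqk' : (q : ℝ) ≤ k := by exact_mod_cast hqk
    have hτ0 : 0 < 4 - 2 * Real.sqrt 3 := by linarith
    have hτ1 : 4 - 2 * Real.sqrt 3 < 0.6 := by linarith
    set τ : ℝ := 4 - 2 * Real.sqrt 3 with hτ
    -- one copy
    have hone : τ * k * N ≤ q * (c * (k + q)) := by
      rw [hNr, hcr]
      have := mul_le_mul_of_nonneg_left hq (by linarith : (0 : ℝ) ≤ q)
      calc τ * k * (q * (2 * k + 2 - q)) = q * (τ * k * (2 * k + 2 - q)) := by ring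
        _ ≤ _ := this
    have hdm : (N : ℝ) * ((n / N : ℕ) : ℝ) + ((n % N : ℕ) : ℝ) = n := by
      exact_mod_cast Nat.div_add_mod n N
    have hr : ((n % N : ℕ) : ℝ) ≤ N := by
      exact_mod_cast (Nat.mod_lt n hNpos).le
    have hNk : (N : ℝ) ≤ 3 * k ^ 2 := by
      rw [hNr]; nlinarith
    have hloss : τ * k * ((n % N : ℕ) : ℝ) ≤ 2 * k ^ 3 := by
      have h1 : τ * k * ((n % N : ℕ) : ℝ) ≤ τ * k * (3 * k ^ 2) := by
        apply mul_le_mul_of_nonneg_left (hr.trans hNk)
        positivity
      have h2 : τ * k * (3 * k ^ 2) = 3 * τ * (k : ℝ) ^ 3 := by ring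
      have h3 : (0 : ℝ) ≤ (k : ℝ) ^ 3 := by positivity
      nlinarith
    have hmain : τ * k * n - 2 * k ^ 3 ≤ (((n / N) * (q * (c * (k + q))) : ℕ) : ℝ) := by
      push_cast
      have ht : (0 : ℝ) ≤ ((n / N : ℕ) : ℝ) := Nat.cast_nonneg _
      have h1 := mul_le_mul_of_nonneg_left hone ht
      have h2 : τ * k * n = ((n / N : ℕ) : ℝ) * (τ * k * N) + τ * k * ((n % N : ℕ) : ℝ) := by
        rw [← hdm]; ring
      rw [h2]
      linarith
    refine ⟨hmain, ?_⟩
    intro h0
    have h4 : (((n / N) * (q * (c * (k + q))) : ℕ) : ℝ) = 0 := by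
      rw [h0]; simp
    rw [h4] at hmain
    exact hmain

end Pool.Agent.Helper606.BlockGraph
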