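import Mathlib

set_option autoImplicit false

namespace Pool.Agent.Helper606.CritThree

open Finset

variable {V : Type*} [Fintype V] [DecidableEq V]

open Classical in
/-- The open neighbourhood of a vertex set: vertices outside the set with a neighbour in it. -/
noncomputable def nb (G : SimpleGraph V) (S : Finset V) : Finset V :=
  Finset.univ.filter (fun v => v ∉ S ∧ ∃ u ∈ S, G.Adj u v)

/-- The vertices outside a set and its open neighbourhood. -/
noncomputable def co (G : SimpleGraph V) (S : Finset V) : Finset V := (S ∪ nb G S)ᶜ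

/-- A fragment: a nonempty set with exactly `k` outer neighbours that misses some vertex
outside itself and its neighbourhood. -/
def Frag (G : SimpleGraph V) (k : ℕ) (F : Finset V) : Prop :=
  F.Nonempty ∧ (co G F).Nonempty ∧ (nb G F).card = k

/-- Separation form of `k`-connectivity. -/
def Conn (G : SimpleGraph V) (k : ℕ) : Prop :=
  ∀ S : Finset V, S.Nonempty → (co G S).Nonempty → k ≤ (nb G S).card

variable {G : SimpleGraph V} {k : ℕ}

lemma mem_nb {S : Finset V} {v : V} : v ∈ nb G S ↔ v ∉ S ∧ ∃ u ∈ S, G.Adj u v := by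
  simp [nb]

lemma mem_co {S : Finset V} {v : V} : v ∈ co G S ↔ v ∉ S ∧ ∀ u ∈ S, ¬ G.Adj u v := by
  simp only [co, mem_compl, mem_union, mem_nb, not_or, not_and, not_exists]
  tauto

lemma disj_nb (S : Finset V) : Disjoint S (nb G S) := by
  rw [Finset.disjoint_left]
  intro v hv h
  exact (mem_nb.1 h).1 hv

lemma disj_co (S : Finset V) : Disjoint S (co G S) := by
  rw [Finset.disjoint_left]
  intro v hv h
  exact (mem_co.1 h).1 hv

lemma disj_nb_co (S : Finset V) : Disjoint (nb G S) (co G S) := by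
  rw [Finset.disjoint_left]
  intro v hv h
  obtain ⟨u, hu, huv⟩ := (mem_nb.1 hv).2
  exact (mem_co.1 h).2 u hu huv

lemma tri (S : Finset V) (v : V) : v ∈ S ∨ v ∈ nb G S ∨ v ∈ co G S := by
  by_cases h : v ∈ S
  · exact Or.inl h
  · right
    by_cases h2 : ∃ u ∈ S, G.Adj u v
    · exact Or.inl (mem_nb.2 ⟨h, h2⟩)
    · right
      rw [mem_co]
      refine ⟨h, ?_⟩
      intro u hu huv
      exact h2 ⟨u, hu, huv⟩

lemma card_split (F S : Finset V) :
    S.card = (F ∩ S).card + (nb G F ∩ S).card + (co G F ∩ S).card := by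
  have h : S = ((F ∩ S) ∪ (nb G F ∩ S)) ∪ (co G F ∩ S) := by
    ext v
    simp only [mem_union, mem_inter]
    have := tri (G := G) F v
    tauto
  have d1 : Disjoint (F ∩ S) (nb G F ∩ S) :=
    (disj_nb F).mono inter_subset_left inter_subset_left
  have d2 : Disjoint ((F ∩ S) ∪ (nb G F ∩ S)) (co G F ∩ S) := by
    rw [disjoint_union_left]
    exact ⟨(disj_co F).mono inter_subset_left inter_subset_left,
      (disj_nb_co F).mono inter_subset_left inter_subset_left⟩
  conv_lhs => rw [h]
  rw [card_union_of_disjoint d2, card_union_of_disjoint d1]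

lemma card_univ_split (F : Finset V) :
    Fintype.card V = F.card + (nb G F).card + (co G F).card := by
  have := card_split (G := G) F (Finset.univ : Finset V)
  simpa using this

lemma sub_co_symm {A B : Finset V} (h : A ⊆ co G B) : B ⊆ co G A := by
  intro b hb
  rw [mem_co]
  constructor
  · intro hA
    exact (mem_co.1 (h hA)).1 hb
  · intro a ha hab
    exact (mem_co.1 (h ha)).2 b hb hab.symm

lemma co_union (A B : Finset V) : co G (A ∪ B) = co G A ∩ co G B := by
  ext v
  simp only [mem_co, mem_inter, mem_union]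
  constructor
  · rintro ⟨h1, h2⟩
    exact ⟨⟨fun h => h1 (Or.inl h), fun u hu => h2 u (Or.inl hu)⟩,
      ⟨fun h => h1 (Or.inr h), fun u hu => h2 u (Or.inr hu)⟩⟩
  · rintro ⟨⟨h1, h2⟩, h3, h4⟩
    refine ⟨fun h => h.elim h1 h3, fun u hu => hu.elim (h2 u) (h4 u)⟩

lemma co_anti {A B : Finset V} (h : A ⊆ B) : co G B ⊆ co G A := by
  intro v hv
  rw [mem_co] at *
  exact ⟨fun hA => hv.1 (h hA), fun u hu => hv.2 u (h hu)⟩

/-- closed neighbourhoods are monotone -/
lemma nb_sub_closed {A B : Finset V} (h : A ⊆ B) : nb G A ⊆ B ∪ nb G B := by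
  intro v hv
  rw [mem_nb] at hv
  obtain ⟨_, u, hu, huv⟩ := hv
  rw [mem_union, mem_nb]
  by_cases hB : v ∈ B
  · exact Or.inl hB
  · exact Or.inr ⟨hB, u, h hu, huv⟩

lemma nb_co_sub (F : Finset V) : nb G (co G F) ⊆ nb G F := by
  intro v hv
  rw [mem_nb] at hv
  obtain ⟨hv1, u, hu, huv⟩ := hv
  rcases tri (G := G) F v with h | h | h
  · exact absurd huv.symm ((mem_co.1 hu).2 v h)
  · exact h
  · exact absurd h hv1

lemma sub_co_co (F : Finset V) : F ⊆ co G (co G F) := sub_co_symm (Finset.Subset.refl _)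

lemma Frag.nb_co (hc : Conn G k) {F : Finset V} (hF : Frag G k F) : nb G (co G F) = nb G F := by
  apply Finset.eq_of_subset_of_card_le (nb_co_sub F)
  rw [hF.2.2]
  exact hc _ hF.2.1 (hF.1.mono (sub_co_co F))

lemma Frag.co_co (hc : Conn G k) {F : Finset V} (hF : Frag G k F) : co G (co G F) = F := by
  apply Finset.Subset.antisymm _ (sub_co_co F)
  intro v hv
  rcases tri (G := G) F v with h | h | h
  · exact h
  · rw [← hF.nb_co hc] at h
    exact absurd hv (Finset.disjoint_left.1 (disj_nb_co (co G F)) h)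
  · exact absurd hv (Finset.disjoint_left.1 (disj_co (co G F)) h)

lemma Frag.co (hc : Conn G k) {F : Finset V} (hF : Frag G k F) : Frag G k (co G F) := by
  refine ⟨hF.2.1, ?_, ?_⟩
  · rw [hF.co_co hc]; exact hF.1
  · rw [hF.nb_co hc]; exact hF.2.2

/-- neighbourhood of a quadrant -/
lemma nb_inter_sub (F E : Finset V) :
    nb G (F ∩ E) ⊆ (F ∩ nb G E) ∪ (nb G F ∩ nb G E) ∪ (nb G F ∩ E) := by
  intro v hv
  rw [mem_nb] at hv
  obtain ⟨hv1, u, hu, huv⟩ := hv
  rw [mem_inter] at hu hv1
  have h1 : v ∈ F ∨ v ∈ nb G F := by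
    by_cases h : v ∈ F
    · exact Or.inl h
    · exact Or.inr (mem_nb.2 ⟨h, u, hu.1, huv⟩)
  have h2 : v ∈ E ∨ v ∈ nb G E := by
    by_cases h : v ∈ E
    · exact Or.inl h
    · exact Or.inr (mem_nb.2 ⟨h, u, hu.2, huv⟩)
  simp only [mem_union, mem_inter]
  tauto

lemma card_quad_le (F E : Finset V) :
    ((F ∩ nb G E) ∪ (nb G F ∩ nb G E) ∪ (nb G F ∩ E)).card ≤
      (F ∩ nb G E).card + (nb G F ∩ nb G E).card + (nb G F ∩ E).card := by
  calc _ ≤ ((F ∩ nb G E) ∪ (nb G F ∩ nb G E)).card + (nb G F ∩ E).card := card_union_le _ _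
    _ ≤ _ := by
      have := card_union_le (F ∩ nb G E) (nb G F ∩ nb G E)
      omega

lemma quad (hc : Conn G k) {F : Finset V} (E : Finset V) (hF : Frag G k F)
    (h : (F ∩ E).Nonempty) :
    k ≤ (F ∩ nb G E).card + (nb G F ∩ nb G E).card + (nb G F ∩ E).card := by
  have h1 : k ≤ (nb G (F ∩ E)).card :=
    hc _ h (hF.2.1.mono (co_anti inter_subset_left))
  have h2 := Finset.card_le_card (nb_inter_sub (G := G) F E)
  have h3 := card_quad_le (G := G) F E
  omega

/-- Opposite quadrants nonempty: both are fragments. -/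
lemma opp (hc : Conn G k) {F E : Finset V} (hF : Frag G k F) (hE : Frag G k E)
    (h : (F ∩ E).Nonempty) (h' : (co G F ∩ co G E).Nonempty) :
    Frag G k (F ∩ E) ∧
    nb G (F ∩ E) = (F ∩ nb G E) ∪ (nb G F ∩ nb G E) ∪ (nb G F ∩ E) ∧
    (F ∩ nb G E).card = (nb G F ∩ co G E).card := by
  have q1 := quad hc E hF h
  have q2 := quad hc (co G E) (hF.co hc) h'
  rw [hF.nb_co hc, hE.nb_co hc] at q2
  have s1 := card_split (G := G) F (nb G E)
  have s2 := card_split (G := G) E (nb G F)
  rw [hE.2.2] at s1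
  rw [hF.2.2] at s2
  rw [inter_comm E, inter_comm (nb G E), inter_comm (co G E)] at s2
  have h1 : k ≤ (nb G (F ∩ E)).card :=
    hc _ h (hF.2.1.mono (co_anti inter_subset_left))
  have h3 := card_quad_le (G := G) F E
  have h2 := nb_inter_sub (G := G) F E
  have h4 : ((F ∩ nb G E) ∪ (nb G F ∩ nb G E) ∪ (nb G F ∩ E)).card ≤ (nb G (F ∩ E)).card := by
    omega
  have h5 := Finset.eq_of_subset_of_card_le h2 h4
  refine ⟨⟨h, hF.2.1.mono (co_anti inter_subset_left), ?_⟩, h5, ?_⟩
  · have := Finset.card_le_card h2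
    omega
  · omega

lemma opp_co (hc : Conn G k) {F E : Finset V} (hF : Frag G k F) (hE : Frag G k E)
    (h : (F ∩ E).Nonempty) (h' : (co G F ∩ co G E).Nonempty) :
    co G (F ∩ E) = co G F ∪ co G E := by
  obtain ⟨_, h2, _⟩ := opp hc hF hE h h'
  ext v
  rw [mem_union]
  constructor
  · intro hv
    by_contra hcon
    push Not at hcon
    have hv1 : v ∉ F ∩ E := (mem_co.1 hv).1
    have hv2 : v ∉ nb G (F ∩ E) := fun h => Finset.disjoint_left.1 (disj_nb_co (F ∩ E)) h hv
    rw [h2] at hv2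
    simp only [mem_union, mem_inter] at hv1 hv2
    have a1 := tri (G := G) F v
    have a2 := tri (G := G) E v
    tauto
  · rintro (hv | hv)
    · exact co_anti inter_subset_left hv
    · exact co_anti inter_subset_right hv

lemma frag_union (hc : Conn G k) {F E : Finset V} (hF : Frag G k F) (hE : Frag G k E)
    (h : (F ∩ E).Nonempty) (h' : (co G F ∩ co G E).Nonempty) :
    Frag G k (F ∪ E) := by
  have h1 : (co G (co G F) ∩ co G (co G E)).Nonempty := by
    rw [hF.co_co hc, hE.co_co hc]; exact h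
  have a1 := (opp hc (hF.co hc) (hE.co hc) h' h1).1
  have a2 := opp_co hc (hF.co hc) (hE.co hc) h' h1
  rw [hF.co_co hc, hE.co_co hc] at a2
  rw [← a2]
  exact a1.co hc


section Core

open Classical in
/-- vertices of `F` with a neighbour in `B` -/
noncomputable def nf (G : SimpleGraph V) (F B : Finset V) : Finset V :=
  F.filter (fun v => ∃ u ∈ B, G.Adj u v)

omit [Fintype V] [DecidableEq V] in
lemma mem_nf {F B : Finset V} {v : V} : v ∈ nf G F B ↔ v ∈ F ∧ ∃ u ∈ B, G.Adj u v := by
  simp [nf]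

lemma nf_mono {F A B : Finset V} (h : A ⊆ B) : nf G F A ⊆ nf G F B := by
  intro v hv
  rw [mem_nf] at *
  obtain ⟨h1, u, hu, huv⟩ := hv
  exact ⟨h1, u, h hu, huv⟩

lemma hall (hc : Conn G k) {F : Finset V} (hF : Frag G k F) (hk : k < F.card)
    {B : Finset V} (hB : B ⊆ nb G F) : B.card ≤ (nf G F B).card := by
  have hBk : B.card ≤ k := by
    have := Finset.card_le_card hB
    rw [hF.2.2] at this
    exact this
  by_cases hR : (F \ nf G F B).Nonempty
  · have h1 : k ≤ (nb G (F \ nf G F B)).card :=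
      hc _ hR (hF.2.1.mono (co_anti sdiff_subset))
    have h2 : nb G (F \ nf G F B) ⊆ (nb G F \ B) ∪ nf G F B := by
      intro v hv
      rw [mem_nb] at hv
      obtain ⟨hv1, u, hu, huv⟩ := hv
      rw [mem_sdiff, mem_nf] at hu
      rw [mem_sdiff] at hv1
      rw [mem_union, mem_sdiff]
      by_cases hvF : v ∈ F
      · right
        by_contra hcon
        exact hv1 ⟨hvF, hcon⟩
      · left
        refine ⟨mem_nb.2 ⟨hvF, u, hu.1, huv⟩, ?_⟩
        intro hvB
        exact hu.2 ⟨hu.1, v, hvB, huv.symm⟩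
    have h3 := Finset.card_le_card h2
    have h4 := card_union_le (nb G F \ B) (nf G F B)
    have h5 := Finset.card_sdiff_of_subset hB
    rw [hF.2.2] at h5
    omega
  · rw [Finset.not_nonempty_iff_eq_empty, Finset.sdiff_eq_empty_iff_subset] at hR
    have := Finset.card_le_card hR
    omega

lemma exists_core (hc : Conn G k) {F : Finset V} (hF : Frag G k F) (hk : k < F.card) :
    ∃ K ⊆ F, K.card ≤ k ∧ ∀ E : Finset V, Frag G k E → F ∩ co G E = ∅ → (F ∩ E).Nonempty →
      (co G F ∩ co G E).Nonempty → F ∩ nb G E ⊆ K := by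
  classical
  let S : Finset (Finset V) := (nb G F).powerset.filter (fun B => (nf G F B).card ≤ B.card)
  have hS : ∅ ∈ S := by
    simp only [S, mem_filter, mem_powerset]
    refine ⟨empty_subset _, ?_⟩
    simp [nf]
  obtain ⟨B, hBS, hmax⟩ := Finset.exists_max_image S (fun B => B.card) ⟨_, hS⟩
  have hB : B ⊆ nb G F ∧ (nf G F B).card ≤ B.card := by
    simpa only [S, mem_filter, mem_powerset] using hBS
  refine ⟨nf G F B, filter_subset _ _, ?_, ?_⟩
  · have := Finset.card_le_card hB.1
    rw [hF.2.2] at this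
    omega
  · intro E hE h1 h2 h3
    obtain ⟨_, _, hcard⟩ := opp hc hF hE h2 h3
    have hsub : nf G F (nb G F ∩ co G E) ⊆ F ∩ nb G E := by
      intro v hv
      rw [mem_nf] at hv
      obtain ⟨hvF, u, hu, huv⟩ := hv
      rw [mem_inter] at hu ⊢
      refine ⟨hvF, ?_⟩
      rcases tri (G := G) E v with h | h | h
      · exact absurd huv.symm ((mem_co.1 hu.2).2 v h)
      · exact h
      · have : v ∈ F ∩ co G E := mem_inter.2 ⟨hvF, h⟩
        rw [h1] at this
        simp at this
    have hle := hall hc hF hk (B := nb G F ∩ co G E) inter_subset_left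
    have heq : nf G F (nb G F ∩ co G E) = F ∩ nb G E :=
      Finset.eq_of_subset_of_card_le hsub (by omega)
    have hcle := Finset.card_le_card hsub
    -- the union with `B` is tight
    have hun : (nb G F ∩ co G E) ∪ B ∈ S := by
      simp only [S, mem_filter, mem_powerset]
      refine ⟨union_subset inter_subset_left hB.1, ?_⟩
      have e1 : nf G F ((nb G F ∩ co G E) ∪ B) = nf G F (nb G F ∩ co G E) ∪ nf G F B := by
        ext v
        simp only [mem_union, mem_nf]
        constructor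
        · rintro ⟨h, u, hu | hu, huv⟩
          · exact Or.inl ⟨h, u, hu, huv⟩
          · exact Or.inr ⟨h, u, hu, huv⟩
        · rintro (⟨h, u, hu, huv⟩ | ⟨h, u, hu, huv⟩)
          · exact ⟨h, u, Or.inl hu, huv⟩
          · exact ⟨h, u, Or.inr hu, huv⟩
      have e2 : nf G F ((nb G F ∩ co G E) ∩ B) ⊆ nf G F (nb G F ∩ co G E) ∩ nf G F B := by
        intro v hv
        rw [mem_inter]
        exact ⟨nf_mono inter_subset_left hv, nf_mono inter_subset_right hv⟩
      have e3 := hall hc hF hk (B := (nb G F ∩ co G E) ∩ B)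
        (inter_subset_left.trans inter_subset_left)
      have e4 := Finset.card_le_card e2
      have e5 := Finset.card_union_add_card_inter (nf G F (nb G F ∩ co G E)) (nf G F B)
      have e6 := Finset.card_union_add_card_inter (nb G F ∩ co G E) B
      rw [e1]
      omega
    have hle2 := hmax _ hun
    have hsubB : (nb G F ∩ co G E) ⊆ B := by
      have : B = (nb G F ∩ co G E) ∪ B :=
        Finset.eq_of_subset_of_card_le subset_union_right hle2
      rw [this]
      exact subset_union_left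
    rw [← heq]
    exact nf_mono hsubB

/-- The key dichotomy for a min cut through a core vertex of a large fragment. -/
lemma dichotomy (hc : Conn G k) {F : Finset V} (hF : Frag G k F) (hk : k < F.card)
    {K : Finset V}
    (hK : ∀ E : Finset V, Frag G k E → F ∩ co G E = ∅ → (F ∩ E).Nonempty →
      (co G F ∩ co G E).Nonempty → F ∩ nb G E ⊆ K)
    {x : V} (hx : x ∈ F \ K) {E : Finset V} (hE : Frag G k E) (hxE : x ∈ nb G E) :
    ((F ∩ E).Nonempty ∧ (F ∩ co G E).Nonempty ∧
      (co G F ∩ nb G E).card ≤ (F ∩ nb G E).card) ∨ co G E ⊆ nb G F ∨ E ⊆ nb G F := by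
  rw [mem_sdiff] at hx
  -- one-sided analysis, for `E` and for its complementary fragment
  have key : ∀ D : Finset V, Frag G k D → x ∈ nb G D → F ∩ co G D = ∅ → co G D ⊆ nb G F := by
    intro D hD hxD h
    have hne : (F ∩ D).Nonempty := by
      by_contra hcon
      rw [Finset.not_nonempty_iff_eq_empty] at hcon
      have hs := card_split (G := G) D F
      rw [inter_comm D F, inter_comm (co G D) F, h, hcon] at hs
      have := Finset.card_le_card (inter_subset_left : nb G D ∩ F ⊆ nb G D)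
      rw [hD.2.2] at this
      simp at hs
      omega
    by_cases h2 : (co G F ∩ co G D).Nonempty
    · exact absurd (hK D hD h hne h2 (mem_inter.2 ⟨hx.1, hxD⟩)) hx.2
    · rw [Finset.not_nonempty_iff_eq_empty] at h2
      intro v hv
      rcases tri (G := G) F v with h3 | h3 | h3
      · have : v ∈ F ∩ co G D := mem_inter.2 ⟨h3, hv⟩
        rw [h] at this
        simp at this
      · exact h3
      · have : v ∈ co G F ∩ co G D := mem_inter.2 ⟨h3, hv⟩
        rw [h2] at this
        simp at this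
  by_cases h1 : (F ∩ co G E).Nonempty
  · by_cases h2 : (F ∩ E).Nonempty
    · left
      refine ⟨h2, h1, ?_⟩
      have q1 := quad hc E hF h2
      have q2 := quad hc (co G E) hF h1
      rw [hE.nb_co hc] at q2
      have s1 := card_split (G := G) F (nb G E)
      have s2 := card_split (G := G) E (nb G F)
      rw [hE.2.2] at s1
      rw [hF.2.2] at s2
      rw [inter_comm E, inter_comm (nb G E), inter_comm (co G E)] at s2
      omega
    · right; right
      rw [Finset.not_nonempty_iff_eq_empty] at h2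
      have := key (co G E) (hE.co hc) (by rw [hE.nb_co hc]; exact hxE)
        (by rw [hE.co_co hc]; exact h2)
      rwa [hE.co_co hc] at this
  · right; left
    rw [Finset.not_nonempty_iff_eq_empty] at h1
    exact key E hE hxE h1

end Core

section Counting

omit [Fintype V] in
lemma inj_family (X : Finset (Finset V)) (T : Finset V)
    (hd : ∀ A ∈ X, ∀ B ∈ X, A ≠ B → Disjoint A B) (hT : ∀ A ∈ X, (A ∩ T).Nonempty) :
    X.card ≤ T.card := by
  classical
  have hT' : ∀ A : Finset V, A ∈ X → ∃ v, v ∈ A ∩ T := fun A hA => hT A hA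
  by_cases hX : X = ∅
  · simp [hX]
  · obtain ⟨A0, hA0⟩ := Finset.nonempty_iff_ne_empty.2 hX
    obtain ⟨v0, _⟩ := hT' A0 hA0
    let f : Finset V → V := fun A => if h : A ∈ X then (hT' A h).choose else v0
    have hf : ∀ A ∈ X, f A ∈ A ∩ T := by
      intro A hA
      simp only [f, hA, dif_pos]
      exact (hT' A hA).choose_spec
    apply Finset.card_le_card_of_injOn f
    · intro A hA
      exact (mem_inter.1 (hf A hA)).2
    · intro A hA B hB hAB
      by_contra hne
      have h1 := (mem_inter.1 (hf A hA)).1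
      have h2 := (mem_inter.1 (hf B hB)).1
      rw [← hAB] at h2
      exact Finset.disjoint_left.1 (hd A hA B hB hne) h1 h2

lemma exists_max_family (M : Finset V → Prop)
    (hU : ∀ A B, M A → M B → (A ∩ B).Nonempty → M (A ∪ B)) :
    ∃ X : Finset (Finset V), (∀ A ∈ X, M A) ∧ (∀ A ∈ X, ∀ B ∈ X, A ≠ B → Disjoint A B) ∧
      ∀ A, M A → ∃ B ∈ X, A ⊆ B := by
  classical
  let X : Finset (Finset V) := Finset.univ.filter (fun A => M A ∧ ∀ B, M B → A ⊆ B → B ⊆ A)
  have hX : ∀ A, A ∈ X ↔ (M A ∧ ∀ B, M B → A ⊆ B → B ⊆ A) := by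
    intro A; simp [X]
  refine ⟨X, fun A hA => ((hX A).1 hA).1, ?_, ?_⟩
  · intro A hA B hB hAB
    by_contra hcon
    rw [Finset.not_disjoint_iff_nonempty_inter] at hcon
    have h1 := (hX A).1 hA
    have h2 := (hX B).1 hB
    have h3 := hU A B h1.1 h2.1 hcon
    have h4 := h1.2 _ h3 subset_union_left
    have h5 := h2.2 _ h3 subset_union_right
    apply hAB
    apply Finset.Subset.antisymm
    · exact subset_union_left.trans h5
    · exact subset_union_right.trans h4
  · intro A hA
    obtain ⟨B, hB, hmax⟩ := Finset.exists_max_image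
      (Finset.univ.filter (fun B => M B ∧ A ⊆ B)) (fun B => B.card) ⟨A, by simp [hA]⟩
    simp only [mem_filter, mem_univ, true_and] at hB hmax
    refine ⟨B, (hX B).2 ⟨hB.1, ?_⟩, hB.2⟩
    intro C hC hBC
    have h1 := hmax C ⟨hC, hB.2.trans hBC⟩
    have h2 := Finset.eq_of_subset_of_card_le hBC h1
    rw [h2]

lemma triples_le (X : Finset (Finset V)) (hX : ∀ A ∈ X, Frag G k A)
    (P : Finset (V × V × V))
    (hP : ∀ p ∈ P, ∃ A ∈ X, p.1 ∈ A ∪ nb G A ∧ p.2.1 ∈ A ∪ nb G A ∧ p.2.2 ∈ A ∪ nb G A) :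
    P.card ≤ ∑ A ∈ X, (A.card + k) ^ 3 := by
  classical
  have h1 : P ⊆ X.biUnion (fun A => (A ∪ nb G A) ×ˢ ((A ∪ nb G A) ×ˢ (A ∪ nb G A))) := by
    intro p hp
    obtain ⟨A, hA, h⟩ := hP p hp
    rw [mem_biUnion]
    refine ⟨A, hA, ?_⟩
    rw [mem_product, mem_product]
    exact h
  refine (Finset.card_le_card h1).trans (card_biUnion_le.trans ?_)
  apply Finset.sum_le_sum
  intro A hA
  rw [card_product, card_product]
  have h2 : (A ∪ nb G A).card ≤ A.card + k := by
    have := card_union_le A (nb G A)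
    rw [(hX A hA).2.2] at this
    exact this
  calc (A ∪ nb G A).card * ((A ∪ nb G A).card * (A ∪ nb G A).card)
      ≤ (A.card + k) * ((A.card + k) * (A.card + k)) := by gcongr
    _ = (A.card + k) ^ 3 := by ring

/-- co-set of the union of two small fragments is nonempty -/
lemma co_inter_nonempty {A B : Finset V} (hA : Frag G k A) (hB : Frag G k B)
    (h : A.card + B.card + 2 * k < Fintype.card V) : (co G A ∩ co G B).Nonempty := by
  rw [← co_union]
  by_contra hcon
  rw [Finset.not_nonempty_iff_eq_empty] at hcon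
  have h1 := card_univ_split (G := G) (A ∪ B)
  rw [hcon] at h1
  have h2 : nb G (A ∪ B) ⊆ nb G A ∪ nb G B := by
    intro v hv
    rw [mem_nb] at hv
    obtain ⟨hv1, u, hu, huv⟩ := hv
    rw [mem_union] at hv1 hu ⊢
    push Not at hv1
    rcases hu with hu | hu
    · exact Or.inl (mem_nb.2 ⟨hv1.1, u, hu, huv⟩)
    · exact Or.inr (mem_nb.2 ⟨hv1.2, u, hu, huv⟩)
  have h3 := Finset.card_le_card h2
  have h4 := card_union_le (nb G A) (nb G B)
  have h5 := card_union_le A B
  rw [hA.2.2, hB.2.2] at h4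
  simp at h1
  omega

/-- Every three vertices lie on a common minimum cut. -/
def Crit (G : SimpleGraph V) (k : ℕ) : Prop :=
  ∀ x y z : V, ∃ E : Finset V, Frag G k E ∧ x ∈ nb G E ∧ y ∈ nb G E ∧ z ∈ nb G E

/-- Three fragments without edges between them. -/
lemma lemA (hc : Conn G k) (h3 : Crit G k) (hn : 6 * k < Fintype.card V)
    {F1 F2 F3 : Finset V} (hF1 : Frag G k F1) (hF2 : Frag G k F2)
    (h12 : F2 ⊆ co G F1) (h13 : F3 ⊆ co G F1) (h23 : F3 ⊆ co G F2) :
    (F1.card - k) * (F2.card - k) * F3.card ≤ 54 * k ^ 4 := by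
  classical
  by_cases hk1 : F1.card ≤ k
  · rw [Nat.sub_eq_zero_of_le hk1]; simp
  by_cases hk2 : F2.card ≤ k
  · rw [Nat.sub_eq_zero_of_le hk2]; simp
  push Not at hk1 hk2
  obtain ⟨K1, hK1s, hK1c, hK1⟩ := exists_core hc hF1 hk1
  obtain ⟨K2, hK2s, hK2c, hK2⟩ := exists_core hc hF2 hk2
  have hTc : (nb G F1 ∪ nb G F2).card ≤ 2 * k := by
    have := card_union_le (nb G F1) (nb G F2)
    rw [hF1.2.2, hF2.2.2] at this
    omega
  obtain ⟨X, hX1, hX2, hX3⟩ := exists_max_family
    (fun M => Frag G k M ∧ M ⊆ nb G F1 ∪ nb G F2) (by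
      rintro A B ⟨hA, hA'⟩ ⟨hB, hB'⟩ hAB
      have c1 := Finset.card_le_card hA'
      have c2 := Finset.card_le_card hB'
      have h := co_inter_nonempty hA hB (by omega)
      exact ⟨frag_union hc hA hB hAB h, union_subset hA' hB'⟩)
  have hXc : X.card ≤ 2 * k := by
    refine (inj_family X (nb G F1 ∪ nb G F2) hX2 ?_).trans hTc
    intro A hA
    rw [inter_eq_left.2 (hX1 A hA).2]
    exact (hX1 A hA).1.1
  have hP := triples_le (G := G) (k := k) X (fun A hA => (hX1 A hA).1)
    ((F1 \ K1) ×ˢ ((F2 \ K2) ×ˢ F3)) (by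
      rintro ⟨x, y, z⟩ hp
      simp only [mem_product] at hp
      obtain ⟨hx, hy, hz⟩ := hp
      obtain ⟨E, hE, hxE, hyE, hzE⟩ := h3 x y z
      suffices h : ∃ M, (Frag G k M ∧ M ⊆ nb G F1 ∪ nb G F2) ∧ nb G M = nb G E by
        obtain ⟨M, hM, hME⟩ := h
        obtain ⟨A, hA, hMA⟩ := hX3 M hM
        have := nb_sub_closed (G := G) hMA
        rw [hME] at this
        exact ⟨A, hA, this hxE, this hyE, this hzE⟩
      rcases dichotomy hc hF1 hk1 hK1 hx hE hxE with d1 | d1 | d1
      · rcases dichotomy hc hF2 hk2 hK2 hy hE hyE with d2 | d2 | d2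
        · exfalso
          have e1 : (F2 ∩ nb G E) ∪ (F3 ∩ nb G E) ⊆ co G F1 ∩ nb G E :=
            union_subset (inter_subset_inter_right h12) (inter_subset_inter_right h13)
          have e2 : (F1 ∩ nb G E) ∪ (F3 ∩ nb G E) ⊆ co G F2 ∩ nb G E :=
            union_subset (inter_subset_inter_right (sub_co_symm h12))
              (inter_subset_inter_right h23)
          have dd1 : Disjoint (F2 ∩ nb G E) (F3 ∩ nb G E) :=
            (disj_co (G := G) F2).mono inter_subset_left (inter_subset_left.trans h23)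
          have dd2 : Disjoint (F1 ∩ nb G E) (F3 ∩ nb G E) :=
            (disj_co (G := G) F1).mono inter_subset_left (inter_subset_left.trans h13)
          have c1 := Finset.card_le_card e1
          have c2 := Finset.card_le_card e2
          rw [card_union_of_disjoint dd1] at c1
          rw [card_union_of_disjoint dd2] at c2
          have c3 : 0 < (F3 ∩ nb G E).card := card_pos.2 ⟨z, mem_inter.2 ⟨hz, hzE⟩⟩
          have c4 := d1.2.2
          have c5 := d2.2.2
          omega
        · exact ⟨_, ⟨hE.co hc, d2.trans subset_union_right⟩, hE.nb_co hc⟩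
        · exact ⟨_, ⟨hE, d2.trans subset_union_right⟩, rfl⟩
      · exact ⟨_, ⟨hE.co hc, d1.trans subset_union_left⟩, hE.nb_co hc⟩
      · exact ⟨_, ⟨hE, d1.trans subset_union_left⟩, rfl⟩)
  rw [card_product, card_product, card_sdiff_of_subset hK1s, card_sdiff_of_subset hK2s] at hP
  calc (F1.card - k) * (F2.card - k) * F3.card
      ≤ (F1.card - K1.card) * (F2.card - K2.card) * F3.card := by
        gcongr
    _ = (F1.card - K1.card) * ((F2.card - K2.card) * F3.card) := by ring
    _ ≤ ∑ A ∈ X, (A.card + k) ^ 3 := hP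
    _ ≤ ∑ A ∈ X, (2 * k + k) ^ 3 := by
        apply Finset.sum_le_sum
        intro A hA
        have := Finset.card_le_card (hX1 A hA).2
        gcongr
        omega
    _ = X.card * (3 * k) ^ 3 := by
        rw [Finset.sum_const, smul_eq_mul]; ring
    _ ≤ (2 * k) * (3 * k) ^ 3 := by gcongr
    _ = 54 * k ^ 4 := by ring

end Counting

section Big

lemma big_gt (hk : 1 ≤ k) {m : ℕ} (h : 10000 * k ^ 3 < m ^ 2) : 100 * k < m := by
  by_contra hcon
  push Not at hcon
  have h1 : m ^ 2 ≤ (100 * k) ^ 2 := Nat.pow_le_pow_left hcon 2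
  have h2 : k ^ 2 ≤ k ^ 3 := Nat.pow_le_pow_right hk (by norm_num)
  nlinarith

lemma big_mul {a b : ℕ} (ha : 10000 * k ^ 3 < a ^ 2) (hb : 10000 * k ^ 3 < b ^ 2) :
    10000 * k ^ 3 < a * b := by
  by_contra hcon
  push Not at hcon
  have h1 : (a * b) ^ 2 ≤ (10000 * k ^ 3) ^ 2 := Nat.pow_le_pow_left hcon 2
  have h2 : (10000 * k ^ 3) * (10000 * k ^ 3) < a ^ 2 * b ^ 2 :=
    Nat.mul_lt_mul'' ha hb
  nlinarith

/-- numeric core of the quadrant bound -/
lemma num_aux (hk : 1 ≤ k) {p q f f' : ℕ} (hf : 10000 * k ^ 3 < f ^ 2)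
    (hf' : 10000 * k ^ 3 < f' ^ 2) (hpq : f ≤ p + q + k) (hp : 2 * k < p) (hq : 2 * k < q)
    (h : (p - k) * (q - k) * f' ≤ 54 * k ^ 4) : False := by
  have h1 := big_gt hk hf
  have h2 := big_mul hf hf'
  obtain ⟨p', rfl⟩ : ∃ p', p = p' + k := ⟨p - k, by omega⟩
  obtain ⟨q', rfl⟩ : ∃ q', q = q' + k := ⟨q - k, by omega⟩
  rw [Nat.add_sub_cancel, Nat.add_sub_cancel] at h
  have hp' : k < p' := by omega
  have hq' : k < q' := by omega
  -- p' q' ≥ k (p' + q' - k)
  have h3 : k * (p' + q') ≤ p' * q' + k * k := by nlinarith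
  have h4 : k * f ≤ p' * q' + 4 * (k * k) := by nlinarith
  have h5 : k * (100 * k) ≤ k * f := Nat.mul_le_mul_left k h1.le
  have h6 : 24 * (k * f) ≤ 25 * (p' * q') := by nlinarith
  have h7 : 24 * (k * f) * f' ≤ 25 * (p' * q' * f') := by
    calc 24 * (k * f) * f' ≤ 25 * (p' * q') * f' := Nat.mul_le_mul_right f' h6
      _ = _ := by ring
  have h8 : 24 * k * (f * f') ≤ 25 * (54 * k ^ 4) := by
    calc 24 * k * (f * f') = 24 * (k * f) * f' := by ring
      _ ≤ _ := h7
      _ ≤ _ := Nat.mul_le_mul_left 25 h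
  have h9 : 24 * k * (10000 * k ^ 3) < 24 * k * (f * f') :=
    Nat.mul_lt_mul_of_pos_left h2 (by omega)
  have h10 : 0 < k ^ 4 := Nat.pow_pos (by omega)
  nlinarith

lemma lemA' (hc : Conn G k) (h3 : Crit G k) (hk : 1 ≤ k)
    {F : Finset V} (hF : Frag G k F)
    (hb : 10000 * k ^ 3 < F.card ^ 2) (hb' : 10000 * k ^ 3 < (co G F).card ^ 2)
    {E : Finset V} (hE : Frag G k E)
    (h1 : (F ∩ E).Nonempty) (h2 : (F ∩ co G E).Nonempty) (h4 : (co G F ∩ E).Nonempty)
    (h5 : (co G F ∩ co G E).Nonempty) :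
    (F ∩ E).card ≤ 2 * k ∨ (F ∩ co G E).card ≤ 2 * k := by
  by_contra hcon
  push Not at hcon
  obtain ⟨hp, hq⟩ := hcon
  have g1 := big_gt hk hb
  have hn : 6 * k < Fintype.card V := by
    have := Finset.card_le_univ F
    omega
  have f1 := (opp hc hF hE h1 h5).1
  have f2 := (opp hc hF (hE.co hc) h2 (by rw [hE.co_co hc]; exact h4)).1
  have hA := lemA hc h3 hn f1 f2 (F3 := co G F)
    (inter_subset_right.trans (co_anti inter_subset_right))
    (co_anti inter_subset_left) (co_anti inter_subset_left)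
  have hs := card_split (G := G) E F
  rw [inter_comm E, inter_comm (nb G E), inter_comm (co G E)] at hs
  have hn2 := Finset.card_le_card (inter_subset_right : F ∩ nb G E ⊆ nb G E)
  rw [hE.2.2] at hn2
  exact num_aux hk hb hb' (by omega) hp hq hA

lemma cross_small (hc : Conn G k) (h3 : Crit G k) (hk : 1 ≤ k)
    {F : Finset V} (hF : Frag G k F)
    (hb : 10000 * k ^ 3 < F.card ^ 2) (hb' : 10000 * k ^ 3 < (co G F).card ^ 2)
    {E : Finset V} (hE : Frag G k E) (h1 : (E ∩ F).Nonempty) (h2 : (E ∩ co G F).Nonempty)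
    (hs : E.card ≤ 10 * k) : E.card ≤ 5 * k := by
  have g1 := big_gt hk hb
  have g2 := big_gt hk hb'
  rw [inter_comm] at h1 h2
  have key : ∀ S : Finset V, 100 * k < S.card → 2 * k < (S ∩ co G E).card := by
    intro S hS
    have hs1 := card_split (G := G) E S
    rw [inter_comm (nb G E), inter_comm (co G E)] at hs1
    have e1 := Finset.card_le_card (inter_subset_left : E ∩ S ⊆ E)
    have e2 := Finset.card_le_card (inter_subset_right : S ∩ nb G E ⊆ nb G E)
    rw [hE.2.2] at e2
    omega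
  have k1 := key F g1
  have k2 := key (co G F) g2
  have n1 : (F ∩ co G E).Nonempty := card_pos.1 (by omega)
  have n2 : (co G F ∩ co G E).Nonempty := card_pos.1 (by omega)
  have a1 := lemA' hc h3 hk hF hb hb' hE h1 n1 h2 n2
  have a2 := lemA' hc h3 hk (hF.co hc) hb' (by rw [hF.co_co hc]; exact hb) hE h2 n2
    (by rw [hF.co_co hc]; exact h1) (by rw [hF.co_co hc]; exact n1)
  have hs2 := card_split (G := G) F E
  have e3 := Finset.card_le_card (inter_subset_left : nb G F ∩ E ⊆ nb G F)
  rw [hF.2.2] at e3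
  omega

/-- The fragments of type Xb through `y`: close to `F` and crossing it fully. -/
def Near (G : SimpleGraph V) (k : ℕ) (F : Finset V) (y : V) (E : Finset V) : Prop :=
  Frag G k E ∧ y ∈ nb G E ∧ (F ∩ E).Nonempty ∧ (F ∩ co G E).Nonempty ∧
    (co G F ∩ E).Nonempty ∧ (co G F ∩ co G E).Nonempty ∧
    (F ∩ co G E).card ≤ 2 * k ∧ (co G F ∩ E).card ≤ 2 * k

lemma near_inter (hc : Conn G k) (h3 : Crit G k) (hk : 1 ≤ k)
    {F : Finset V} (hF : Frag G k F)
    (hb : 10000 * k ^ 3 < F.card ^ 2) (hb' : 10000 * k ^ 3 < (co G F).card ^ 2)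
    {K : Finset V}
    (hK : ∀ E : Finset V, Frag G k E → (co G F) ∩ co G E = ∅ → ((co G F) ∩ E).Nonempty →
      (co G (co G F) ∩ co G E).Nonempty → (co G F) ∩ nb G E ⊆ K)
    {y : V} (hy : y ∈ co G F \ K) {A B : Finset V} (hA : Near G k F y A)
    (hB : Near G k F y B) : Near G k F y (A ∩ B) := by
  have g1 := big_gt hk hb
  have g2 := big_gt hk hb'
  obtain ⟨hA0, hAy, hA1, hA2, hA3, hA4, hA5, hA6⟩ := hA
  obtain ⟨hB0, hBy, hB1, hB2, hB3, hB4, hB5, hB6⟩ := hB
  have sA := card_split (G := G) A F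
  have sB := card_split (G := G) B F
  have sA' := card_split (G := G) A (co G F)
  have sB' := card_split (G := G) B (co G F)
  have nA := Finset.card_le_card (inter_subset_left : nb G A ∩ F ⊆ nb G A)
  have nB := Finset.card_le_card (inter_subset_left : nb G B ∩ F ⊆ nb G B)
  have nA' := Finset.card_le_card (inter_subset_left : nb G A ∩ co G F ⊆ nb G A)
  have nB' := Finset.card_le_card (inter_subset_left : nb G B ∩ co G F ⊆ nb G B)
  rw [hA0.2.2] at nA nA'
  rw [hB0.2.2] at nB nB'
  rw [inter_comm F (co G A)] at hA5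
  rw [inter_comm F (co G B)] at hB5
  rw [inter_comm (co G F) A] at hA6
  rw [inter_comm (co G F) B] at hB6
  -- `F ∩ (A ∩ B)` is large
  have big1 : 2 * k < (F ∩ (A ∩ B)).card := by
    have h1 : (F ∩ A) ∪ (F ∩ B) ⊆ F := union_subset inter_subset_left inter_subset_left
    have h2 : (F ∩ A) ∩ (F ∩ B) = F ∩ (A ∩ B) := by
      ext v; simp only [mem_inter]; tauto
    have h3 := card_union_add_card_inter (F ∩ A) (F ∩ B)
    rw [h2] at h3
    have h4 := Finset.card_le_card h1
    rw [inter_comm A F] at sA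
    rw [inter_comm B F] at sB
    omega
  have big2 : 2 * k < (co G F ∩ (co G A ∩ co G B)).card := by
    have h1 : (co G F ∩ co G A) ∪ (co G F ∩ co G B) ⊆ co G F :=
      union_subset inter_subset_left inter_subset_left
    have h2 : (co G F ∩ co G A) ∩ (co G F ∩ co G B) = co G F ∩ (co G A ∩ co G B) := by
      ext v; simp only [mem_inter]; tauto
    have h3 := card_union_add_card_inter (co G F ∩ co G A) (co G F ∩ co G B)
    rw [h2] at h3
    have h4 := Finset.card_le_card h1
    rw [inter_comm (co G A) (co G F)] at sA'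
    rw [inter_comm (co G B) (co G F)] at sB'
    omega
  have ne1 : (A ∩ B).Nonempty := by
    have : (F ∩ (A ∩ B)).Nonempty := card_pos.1 (by omega)
    exact this.mono inter_subset_right
  have ne2 : (co G A ∩ co G B).Nonempty := by
    have : (co G F ∩ (co G A ∩ co G B)).Nonempty := card_pos.1 (by omega)
    exact this.mono inter_subset_right
  obtain ⟨fr, hnb, _⟩ := opp hc hA0 hB0 ne1 ne2
  have hco := opp_co hc hA0 hB0 ne1 ne2
  have hyn : y ∈ nb G (A ∩ B) := by
    rw [hnb]
    simp only [mem_union, mem_inter]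
    exact Or.inl (Or.inr ⟨hAy, hBy⟩)
  have c1 : (F ∩ (A ∩ B)).Nonempty := card_pos.1 (by omega)
  have c2 : (F ∩ co G (A ∩ B)).Nonempty := by
    rw [hco]
    exact hA2.mono (inter_subset_inter_left subset_union_left)
  have c4 : (co G F ∩ co G (A ∩ B)).Nonempty := by
    rw [hco]
    exact hA4.mono (inter_subset_inter_left subset_union_left)
  have c3 : (co G F ∩ (A ∩ B)).Nonempty := by
    by_contra hcon
    rw [Finset.not_nonempty_iff_eq_empty] at hcon
    have := hK (co G (A ∩ B)) (fr.co hc) (by rw [fr.co_co hc]; exact hcon) c4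
      (by rw [hF.co_co hc, fr.co_co hc]; exact c1)
    rw [fr.nb_co hc] at this
    rw [mem_sdiff] at hy
    exact hy.2 (this (mem_inter.2 ⟨hy.1, hyn⟩))
  have a1 := lemA' hc h3 hk hF hb hb' fr c1 c2 c3 c4
  have a2 := lemA' hc h3 hk (hF.co hc) hb' (by rw [hF.co_co hc]; exact hb) fr c3 c4
    (by rw [hF.co_co hc]; exact c1) (by rw [hF.co_co hc]; exact c2)
  have big3 : 2 * k < (co G F ∩ co G (A ∩ B)).card := by
    rw [hco]
    have : co G F ∩ (co G A ∩ co G B) ⊆ co G F ∩ (co G A ∪ co G B) :=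
      inter_subset_inter_left (inter_subset_left.trans subset_union_left)
    have := Finset.card_le_card this
    omega
  refine ⟨fr, hyn, c1, c2, c3, c4, ?_, ?_⟩
  · omega
  · omega

end Big

section Final

lemma near_bound (hc : Conn G k) (h3 : Crit G k) (hk : 1 ≤ k)
    {F : Finset V} (hF : Frag G k F)
    (hb : 10000 * k ^ 3 < F.card ^ 2) (hb' : 10000 * k ^ 3 < (co G F).card ^ 2)
    {K : Finset V}
    (hK : ∀ E : Finset V, Frag G k E → (co G F) ∩ co G E = ∅ → ((co G F) ∩ E).Nonempty →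
      (co G (co G F) ∩ co G E).Nonempty → (co G F) ∩ nb G E ⊆ K)
    (y : V) (hy : y ∈ co G F \ K) :
    ∃ Z : Finset V, Z.card ≤ 3 * k ∧ ∀ E, Near G k F y E → F ∩ nb G E ⊆ Z := by
  classical
  by_cases hex : ∃ E, Near G k F y E
  · obtain ⟨E0, hE0⟩ := hex
    obtain ⟨P, hP, hmin⟩ := Finset.exists_min_image
      (Finset.univ.filter (fun E => Near G k F y E)) (fun B => B.card) ⟨E0, by simp [hE0]⟩
    simp only [mem_filter, mem_univ, true_and] at hP hmin
    refine ⟨F \ P, ?_, ?_⟩
    · have hs := card_split (G := G) P F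
      have h1 : (F \ P).card + (P ∩ F).card = F.card := by
        rw [inter_comm]; exact Finset.card_sdiff_add_card_inter F P
      have h2 := Finset.card_le_card (inter_subset_left : nb G P ∩ F ⊆ nb G P)
      rw [hP.1.2.2] at h2
      have h3 := hP.2.2.2.2.2.2.1
      rw [inter_comm F (co G P)] at h3
      omega
    · intro E hE v hv
      have h1 := near_inter hc h3 hk hF hb hb' hK hy hP hE
      have h2 := hmin _ h1
      have h4 : P ∩ E = P := Finset.eq_of_subset_of_card_le inter_subset_left h2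
      rw [mem_inter] at hv
      rw [mem_sdiff]
      refine ⟨hv.1, ?_⟩
      intro hvP
      rw [← h4, mem_inter] at hvP
      exact (mem_nb.1 hv.2).1 hvP.2
  · refine ⟨∅, by simp, ?_⟩
    intro E hE
    exact absurd ⟨E, hE⟩ hex

lemma num_aux2 (hk : 1 ≤ k) {f f' n : ℕ} (hf : 10000 * k ^ 3 < f ^ 2)
    (hf' : 10000 * k ^ 3 < f' ^ 2) (hn : f ≤ n)
    (h : (f' - k) * ((f - 4 * k) * n) ≤ 216 * k ^ 4) : False := by
  have h1 := big_gt hk hf
  have h1' := big_gt hk hf'
  have h2 := big_mul hf hf'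
  obtain ⟨a, rfl⟩ : ∃ a, f = a + 4 * k := ⟨f - 4 * k, by omega⟩
  obtain ⟨b, rfl⟩ : ∃ b, f' = b + k := ⟨f' - k, by omega⟩
  rw [Nat.add_sub_cancel, Nat.add_sub_cancel] at h
  have h3 : (a + 4 * k) * (b + k) ≤ (2 * a) * (2 * b) := by
    apply Nat.mul_le_mul <;> omega
  have h4 : 2500 * k ^ 3 < b * a := by nlinarith
  have h5 : 100 * k < n := by omega
  have h6 : (2500 * k ^ 3) * (100 * k) < (b * a) * n := Nat.mul_lt_mul'' h4 h5
  have h7 : 0 < k ^ 4 := Nat.pow_pos (by omega)
  nlinarith

/-- There is no fragment that is large on both sides. -/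
lemma no_big (hc : Conn G k) (h3 : Crit G k) (hk : 1 ≤ k)
    {F : Finset V} (hF : Frag G k F)
    (hb : 10000 * k ^ 3 < F.card ^ 2) (hb' : 10000 * k ^ 3 < (co G F).card ^ 2) : False := by
  classical
  have g1 := big_gt hk hb
  have g2 := big_gt hk hb'
  have hnF := Finset.card_le_univ F
  obtain ⟨K, hKs, hKc, hK⟩ := exists_core hc hF (by omega)
  obtain ⟨K', hKs', hKc', hK'⟩ := exists_core hc (hF.co hc) (by omega)
  have hn : 12 * k < Fintype.card V := by omega
  obtain ⟨X, hX1, hX2, hX3⟩ := exists_max_family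
    (fun M => Frag G k M ∧ M.card ≤ 5 * k ∧ (M ∩ nb G F).Nonempty ∧
      (M ⊆ nb G F ∨ ((M ∩ F).Nonempty ∧ (M ∩ co G F).Nonempty)))
    (by
      rintro A B ⟨hA, hA1, hA2, hA3⟩ ⟨hB, hB1, hB2, hB3⟩ hAB
      have h := co_inter_nonempty hA hB (by omega)
      have hU := frag_union hc hA hB hAB h
      have hcU := card_union_le A B
      have hT : (A ∪ B ∩ nb G F).Nonempty ∨ True := Or.inr trivial
      have hcross : ((A ∪ B) ∩ F).Nonempty → ((A ∪ B) ∩ co G F).Nonempty →
          (A ∪ B).card ≤ 5 * k := by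
        intro c1 c2
        exact cross_small hc h3 hk hF hb hb' hU c1 c2 (by omega)
      have hAl : (A ∩ F).Nonempty → ((A ∪ B) ∩ F).Nonempty :=
        fun h => h.mono (inter_subset_inter_right subset_union_left)
      have hBl : (B ∩ F).Nonempty → ((A ∪ B) ∩ F).Nonempty :=
        fun h => h.mono (inter_subset_inter_right subset_union_right)
      have hAr : (A ∩ co G F).Nonempty → ((A ∪ B) ∩ co G F).Nonempty :=
        fun h => h.mono (inter_subset_inter_right subset_union_left)
      have hBr : (B ∩ co G F).Nonempty → ((A ∪ B) ∩ co G F).Nonempty :=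
        fun h => h.mono (inter_subset_inter_right subset_union_right)
      have hTn : ((A ∪ B) ∩ nb G F).Nonempty :=
        hA2.mono (inter_subset_inter_right subset_union_left)
      rcases hA3 with hA3 | ⟨hA3, hA4⟩
      · rcases hB3 with hB3 | ⟨hB3, hB4⟩
        · have hs := union_subset hA3 hB3
          have := Finset.card_le_card hs
          rw [hF.2.2] at this
          exact ⟨hU, by omega, hTn, Or.inl hs⟩
        · exact ⟨hU, hcross (hBl hB3) (hBr hB4), hTn, Or.inr ⟨hBl hB3, hBr hB4⟩⟩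
      · exact ⟨hU, hcross (hAl hA3) (hAr hA4), hTn, Or.inr ⟨hAl hA3, hAr hA4⟩⟩)
  have hXc : X.card ≤ k := by
    have := inj_family X (nb G F) hX2 (fun A hA => (hX1 A hA).2.2.1)
    rwa [hF.2.2] at this
  have hZ := near_bound hc h3 hk hF hb hb' hK'
  choose! Z hZc hZ using hZ
  -- the triples that must be covered by small fragments
  let P : Finset (V × V × V) := (co G F \ K').biUnion
    (fun y => {y} ×ˢ (((F \ K) \ Z y) ×ˢ (Finset.univ : Finset V)))
  have hPlow : ((co G F).card - k) * ((F.card - 4 * k) * Fintype.card V) ≤ P.card := by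
    have hd : P.card = ∑ y ∈ co G F \ K',
        ({y} ×ˢ (((F \ K) \ Z y) ×ˢ (Finset.univ : Finset V)) : Finset (V × V × V)).card := by
      apply card_biUnion
      intro y hy y' hy' hne
      rw [Function.onFun, Finset.disjoint_left]
      rintro ⟨p, q⟩ h1 h2
      rw [mem_product, mem_singleton] at h1 h2
      exact hne (h1.1.symm.trans h2.1)
    rw [hd]
    calc ((co G F).card - k) * ((F.card - 4 * k) * Fintype.card V)
        ≤ (co G F \ K').card * ((F.card - 4 * k) * Fintype.card V) := by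
          rw [card_sdiff_of_subset hKs']
          gcongr
      _ = ∑ y ∈ co G F \ K', ((F.card - 4 * k) * Fintype.card V) := by
          rw [sum_const, smul_eq_mul]
      _ ≤ _ := by
          apply Finset.sum_le_sum
          intro y hy
          rw [card_product, card_product, card_singleton, one_mul, card_univ]
          apply Nat.mul_le_mul_right
          have e1 := Finset.le_card_sdiff (Z y) (F \ K)
          have e2 := card_sdiff_of_subset hKs
          have e3 := hZc y hy
          omega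
  have hP := triples_le (G := G) (k := k) X (fun A hA => (hX1 A hA).1) P (by
    rintro ⟨y, x, z⟩ hp
    simp only [P, mem_biUnion, mem_product, mem_singleton, mem_univ, and_true] at hp
    obtain ⟨y', hy, rfl, hx⟩ := hp
    rw [mem_sdiff] at hx
    obtain ⟨hx, hxZ⟩ := hx
    obtain ⟨E, hE, hyE, hxE, hzE⟩ := h3 y x z
    suffices h : ∃ M, (Frag G k M ∧ M.card ≤ 5 * k ∧ (M ∩ nb G F).Nonempty ∧
      (M ⊆ nb G F ∨ ((M ∩ F).Nonempty ∧ (M ∩ co G F).Nonempty))) ∧ nb G M = nb G E by
      obtain ⟨M, hM, hME⟩ := h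
      obtain ⟨A, hA, hMA⟩ := hX3 M hM
      have := nb_sub_closed (G := G) hMA
      rw [hME] at this
      exact ⟨A, hA, this hyE, this hxE, this hzE⟩
    have typeS : ∀ M, Frag G k M → M ⊆ nb G F → (Frag G k M ∧ M.card ≤ 5 * k ∧
        (M ∩ nb G F).Nonempty ∧ (M ⊆ nb G F ∨ ((M ∩ F).Nonempty ∧ (M ∩ co G F).Nonempty))) := by
      intro M hM hs
      have := Finset.card_le_card hs
      rw [hF.2.2] at this
      refine ⟨hM, by omega, ?_, Or.inl hs⟩
      rw [inter_eq_left.2 hs]
      exact hM.1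
    rcases dichotomy hc hF (by omega) hK hx hE hxE with d1 | d1 | d1
    · rcases dichotomy hc (hF.co hc) (by omega) hK' hy hE hyE with d2 | d2 | d2
      · obtain ⟨q1, q2, _⟩ := d1
        obtain ⟨q3, q4, _⟩ := d2
        have hbb : 10000 * k ^ 3 < (co G (co G F)).card ^ 2 := by
          rw [hF.co_co hc]; exact hb
        have a1 := lemA' hc h3 hk hF hb hb' hE q1 q2 q3 q4
        have a2 := lemA' hc h3 hk (hF.co hc) hb' hbb hE q3 q4
          (by rw [hF.co_co hc]; exact q1) (by rw [hF.co_co hc]; exact q2)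
        have c1 := (opp hc hF hE q1 q4).2.2
        have c2 := (opp hc hF (hE.co hc) q2 (by rw [hE.co_co hc]; exact q3)).2.2
        rw [hE.nb_co hc, hE.co_co hc] at c2
        have c3 : 0 < (F ∩ nb G E).card :=
          card_pos.2 ⟨x, mem_inter.2 ⟨(mem_sdiff.1 hx).1, hxE⟩⟩
        have c4 : (E ∩ nb G F).Nonempty := by
          rw [inter_comm]; exact card_pos.1 (by omega)
        have c5 : (co G E ∩ nb G F).Nonempty := by
          rw [inter_comm]; exact card_pos.1 (by omega)
        rcases a1 with a1 | a1 <;> rcases a2 with a2 | a2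
        · -- `E` is small
          have hs := card_split (G := G) F E
          have e3 := Finset.card_le_card (inter_subset_left : nb G F ∩ E ⊆ nb G F)
          rw [hF.2.2] at e3
          refine ⟨E, ⟨hE, by omega, c4, Or.inr ⟨?_, ?_⟩⟩, rfl⟩
          · rw [inter_comm]; exact q1
          · rw [inter_comm]; exact q3
        · exfalso
          have hN : Near G k F y (co G E) := by
            refine ⟨hE.co hc, by rw [hE.nb_co hc]; exact hyE, q2, ?_, q4, ?_, ?_, a2⟩
            · rw [hE.co_co hc]; exact q1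
            · rw [hE.co_co hc]; exact q3
            · rw [hE.co_co hc]; exact a1
          have := hZ y hy _ hN
          rw [hE.nb_co hc] at this
          exact hxZ (this (mem_inter.2 ⟨(mem_sdiff.1 hx).1, hxE⟩))
        · exfalso
          have hN : Near G k F y E := ⟨hE, hyE, q1, q2, q3, q4, a1, a2⟩
          have := hZ y hy _ hN
          exact hxZ (this (mem_inter.2 ⟨(mem_sdiff.1 hx).1, hxE⟩))
        · -- `co E` is small
          have hs := card_split (G := G) F (co G E)
          have e3 := Finset.card_le_card (inter_subset_left : nb G F ∩ co G E ⊆ nb G F)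
          rw [hF.2.2] at e3
          refine ⟨co G E, ⟨hE.co hc, by omega, c5, Or.inr ⟨?_, ?_⟩⟩, hE.nb_co hc⟩
          · rw [inter_comm]; exact q2
          · rw [inter_comm]; exact q4
      · rw [hF.nb_co hc] at d2
        exact ⟨_, typeS _ (hE.co hc) d2, hE.nb_co hc⟩
      · rw [hF.nb_co hc] at d2
        exact ⟨_, typeS _ hE d2, rfl⟩
    · exact ⟨_, typeS _ (hE.co hc) d1, hE.nb_co hc⟩
    · exact ⟨_, typeS _ hE d1, rfl⟩)
  have hup : ∑ A ∈ X, (A.card + k) ^ 3 ≤ 216 * k ^ 4 := by
    calc ∑ A ∈ X, (A.card + k) ^ 3 ≤ ∑ A ∈ X, (5 * k + k) ^ 3 := by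
          apply Finset.sum_le_sum
          intro A hA
          have := (hX1 A hA).2.1
          gcongr
      _ = X.card * (6 * k) ^ 3 := by
          rw [Finset.sum_const, smul_eq_mul]; ring
      _ ≤ k * (6 * k) ^ 3 := by gcongr
      _ = 216 * k ^ 4 := by ring
  exact num_aux2 hk hb hb' hnF (hPlow.trans (hP.trans hup))

end Final

section Main

lemma cube_le {m : ℕ} (hm : 1 ≤ m) (h : m ^ 2 ≤ 10000 * k ^ 3) :
    (m + k) ^ 3 ≤ 40004 * k ^ 3 * m := by
  have h1 : (m + k) ^ 3 ≤ 4 * (m ^ 3 + k ^ 3) := by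
    rcases le_total m k with h | h
    · obtain ⟨d, rfl⟩ := Nat.exists_eq_add_of_le h
      nlinarith [sq_nonneg d, mul_nonneg (Nat.zero_le m) (sq_nonneg d)]
    · obtain ⟨d, rfl⟩ := Nat.exists_eq_add_of_le h
      nlinarith [sq_nonneg d, mul_nonneg (Nat.zero_le k) (sq_nonneg d)]
  have h2 : m ^ 3 ≤ 10000 * k ^ 3 * m := by
    calc m ^ 3 = m ^ 2 * m := by ring
      _ ≤ _ := Nat.mul_le_mul_right m h
  have h3 : k ^ 3 ≤ k ^ 3 * m := Nat.le_mul_of_pos_right _ hm
  nlinarith

/-- Main bound: if `G` is `k`-connected and every three vertices lie on a common minimum cut,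
then `|V|^2 ≤ 150003 k^3`. -/
theorem main_bound (hc : Conn G k) (h3 : Crit G k) (hk : 1 ≤ k) :
    (Fintype.card V) ^ 2 ≤ 150003 * k ^ 3 := by
  classical
  by_contra hcon
  push Not at hcon
  have hk2 : k ^ 2 ≤ k ^ 3 := Nat.pow_le_pow_right hk (by norm_num)
  have hdich : ∀ F, Frag G k F → F.card ^ 2 ≤ 10000 * k ^ 3 ∨
      (co G F).card ^ 2 ≤ 10000 * k ^ 3 := by
    intro F hF
    by_contra h
    push Not at h
    exact no_big hc h3 hk hF h.1 h.2
  obtain ⟨X, hX1, hX2, hX3⟩ := exists_max_family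
    (fun M => Frag G k M ∧ M.card ^ 2 ≤ 10000 * k ^ 3) (by
      rintro A B ⟨hA, hA1⟩ ⟨hB, hB1⟩ hAB
      have hlt : A.card + B.card + 2 * k < Fintype.card V := by
        by_contra h
        push Not at h
        have h1 := Nat.pow_le_pow_left h 2
        have h2 : (A.card + B.card + 2 * k) ^ 2 ≤
            3 * (A.card ^ 2 + B.card ^ 2 + (2 * k) ^ 2) := by
          have e1 : ((A.card : ℤ) + B.card + 2 * k) ^ 2 ≤
              3 * ((A.card : ℤ) ^ 2 + B.card ^ 2 + (2 * k) ^ 2) := by
            nlinarith [sq_nonneg ((A.card : ℤ) - B.card), sq_nonneg ((A.card : ℤ) - 2 * k),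
              sq_nonneg ((B.card : ℤ) - 2 * k)]
          exact_mod_cast e1
        nlinarith
      have h := co_inter_nonempty hA hB hlt
      have hU := frag_union hc hA hB hAB h
      refine ⟨hU, ?_⟩
      rcases hdich _ hU with h4 | h4
      · exact h4
      · exfalso
        have e1 := card_univ_split (G := G) (A ∪ B)
        rw [hU.2.2] at e1
        have e2 := card_union_le A B
        have e3 : Fintype.card V ≤ A.card + B.card + k + (co G (A ∪ B)).card := by omega
        have h1 := Nat.pow_le_pow_left e3 2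
        have h2 : (A.card + B.card + k + (co G (A ∪ B)).card) ^ 2 ≤
            4 * (A.card ^ 2 + B.card ^ 2 + k ^ 2 + (co G (A ∪ B)).card ^ 2) := by
          have e1 : ((A.card : ℤ) + B.card + k + (co G (A ∪ B)).card) ^ 2 ≤
              4 * ((A.card : ℤ) ^ 2 + B.card ^ 2 + k ^ 2 + (co G (A ∪ B)).card ^ 2) := by
            nlinarith [sq_nonneg ((A.card : ℤ) - B.card), sq_nonneg ((A.card : ℤ) - k),
              sq_nonneg ((B.card : ℤ) - k), sq_nonneg ((A.card : ℤ) - (co G (A ∪ B)).card),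
              sq_nonneg ((B.card : ℤ) - (co G (A ∪ B)).card),
              sq_nonneg ((k : ℤ) - (co G (A ∪ B)).card)]
          exact_mod_cast e1
        nlinarith)
  have hP := triples_le (G := G) (k := k) X (fun A hA => (hX1 A hA).1)
    (Finset.univ : Finset (V × V × V)) (by
      rintro ⟨x, y, z⟩ _
      obtain ⟨E, hE, hxE, hyE, hzE⟩ := h3 x y z
      suffices h : ∃ M, (Frag G k M ∧ M.card ^ 2 ≤ 10000 * k ^ 3) ∧ nb G M = nb G E by
        obtain ⟨M, hM, hME⟩ := h
        obtain ⟨A, hA, hMA⟩ := hX3 M hM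
        have := nb_sub_closed (G := G) hMA
        rw [hME] at this
        exact ⟨A, hA, this hxE, this hyE, this hzE⟩
      rcases hdich E hE with h | h
      · exact ⟨E, ⟨hE, h⟩, rfl⟩
      · exact ⟨_, ⟨hE.co hc, h⟩, hE.nb_co hc⟩)
  rw [card_univ, Fintype.card_prod, Fintype.card_prod] at hP
  have hsum : ∑ A ∈ X, A.card ≤ Fintype.card V := by
    have h1 : (X.biUnion id).card = ∑ A ∈ X, (id A : Finset V).card := by
      apply card_biUnion
      intro A hA B hB hAB
      exact hX2 A hA B hB hAB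
    simp only [id] at h1
    rw [← h1]
    exact Finset.card_le_univ _
  have hup : ∑ A ∈ X, (A.card + k) ^ 3 ≤ 40004 * k ^ 3 * Fintype.card V := by
    calc ∑ A ∈ X, (A.card + k) ^ 3 ≤ ∑ A ∈ X, 40004 * k ^ 3 * A.card := by
          apply Finset.sum_le_sum
          intro A hA
          exact cube_le (card_pos.2 (hX1 A hA).1.1) (hX1 A hA).2
      _ = 40004 * k ^ 3 * ∑ A ∈ X, A.card := by rw [Finset.mul_sum]
      _ ≤ _ := Nat.mul_le_mul_left _ hsum
  have hfin := hP.trans hup
  have hn0 : 0 < Fintype.card V := by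
    rcases Nat.eq_zero_or_pos (Fintype.card V) with h | h
    · rw [h] at hcon; simp at hcon
    · exact h
  have h5 : (Fintype.card V) ^ 2 ≤ 40004 * k ^ 3 := by
    have : (Fintype.card V) ^ 2 * Fintype.card V ≤ 40004 * k ^ 3 * Fintype.card V := by
      calc (Fintype.card V) ^ 2 * Fintype.card V
          = Fintype.card V * (Fintype.card V * Fintype.card V) := by ring
        _ ≤ _ := hfin
    exact Nat.le_of_mul_le_mul_right this hn0
  nlinarith

/-- Passing from induced subgraphs to separations. -/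
lemma conn_of_induce (h : ∀ S : Finset V, S.card < k → (G.induce ((S : Set V)ᶜ)).Connected) :
    Conn G k := by
  intro S hS hco
  by_contra hlt
  push Not at hlt
  have hcn := h (nb G S) hlt
  obtain ⟨u, hu⟩ := hS
  obtain ⟨v, hv⟩ := hco
  have hu' : u ∈ ((nb G S : Finset V) : Set V)ᶜ := by
    simp only [Set.mem_compl_iff, mem_coe]
    intro h; exact (mem_nb.1 h).1 hu
  have hv' : v ∈ ((nb G S : Finset V) : Set V)ᶜ := by
    simp only [Set.mem_compl_iff, mem_coe]
    intro h; exact Finset.disjoint_left.1 (disj_nb_co S) h hv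
  obtain ⟨w⟩ := hcn.preconnected ⟨u, hu'⟩ ⟨v, hv'⟩
  have key : ∀ (a b : ↥(((nb G S : Finset V) : Set V)ᶜ))
      (_ : (G.induce (((nb G S : Finset V) : Set V)ᶜ)).Walk a b), (a : V) ∈ S → (b : V) ∈ S := by
    intro a b p
    induction p with
    | nil => exact id
    | @cons a b c hab _ ih =>
      intro ha
      apply ih
      by_contra hb
      have h1 : (b : V) ∈ nb G S := mem_nb.2 ⟨hb, a, ha, by simpa using hab⟩
      exact b.2 (by simpa using h1)
  exact Finset.disjoint_left.1 (disj_co S) (key _ _ w hu) hv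

lemma frag_of_disconnected (hc : Conn G k) {T : Finset V} (hT : T.card ≤ k)
    (hV : k < Fintype.card V) (h : ¬ (G.induce ((T : Set V)ᶜ)).Connected) :
    ∃ E : Finset V, Frag G k E ∧ nb G E = T := by
  classical
  have hne : Nonempty ↥((T : Set V)ᶜ) := by
    have : ∃ v, v ∉ T := by
      by_contra hcon
      push Not at hcon
      have : T = Finset.univ := Finset.eq_univ_iff_forall.2 hcon
      rw [this, card_univ] at hT
      omega
    obtain ⟨v, hv⟩ := this
    exact ⟨⟨v, by simpa using hv⟩⟩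
  rw [SimpleGraph.connected_iff] at h
  push Not at h
  have hp : ¬ (G.induce ((T : Set V)ᶜ)).Preconnected := by
    intro hp
    exact absurd hne (by simpa using h hp)
  unfold SimpleGraph.Preconnected at hp
  push Not at hp
  obtain ⟨u, v, huv⟩ := hp
  let E : Finset V := Finset.univ.filter
    (fun w => ∃ hw : w ∈ ((T : Set V)ᶜ), (G.induce ((T : Set V)ᶜ)).Reachable u ⟨w, hw⟩)
  have hE : ∀ w, w ∈ E ↔ ∃ hw : w ∈ ((T : Set V)ᶜ),
      (G.induce ((T : Set V)ᶜ)).Reachable u ⟨w, hw⟩ := by
    intro w; simp [E]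
  have hnbT : nb G E ⊆ T := by
    intro w hw
    rw [mem_nb] at hw
    obtain ⟨hw1, a, ha, haw⟩ := hw
    by_contra hwT
    apply hw1
    rw [hE] at ha ⊢
    obtain ⟨ha1, ha2⟩ := ha
    have hw' : w ∈ ((T : Set V)ᶜ) := by simpa using hwT
    refine ⟨hw', ha2.trans ?_⟩
    apply SimpleGraph.Adj.reachable
    simpa using haw
  have hEn : E.Nonempty := ⟨u, (hE _).2 ⟨u.2, SimpleGraph.Reachable.refl _⟩⟩
  have hvE : (v : V) ∉ E := by
    intro hv
    obtain ⟨_, h2⟩ := (hE _).1 hv
    exact huv h2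
  have hvco : (v : V) ∈ co G E := by
    rcases tri (G := G) E (v : V) with h1 | h1 | h1
    · exact absurd h1 hvE
    · exact absurd (mem_coe.2 (hnbT h1)) ((Set.mem_compl_iff _ _).1 v.2)
    · exact h1
  have hle : k ≤ (nb G E).card := hc _ hEn ⟨_, hvco⟩
  have heq : nb G E = T := Finset.eq_of_subset_of_card_le hnbT (by omega)
  refine ⟨E, ⟨hEn, ⟨_, hvco⟩, ?_⟩, heq⟩
  have := Finset.card_le_card hnbT
  omega

/-- The bound in terms of the usual definitions. -/
theorem order_bound (hV : k < Fintype.card V)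
    (h0 : ∀ S : Finset V, S.card < k → (G.induce ((S : Set V)ᶜ)).Connected)
    (h3 : ∀ X : Finset V, X.card ≤ 3 → X.card ≤ k ∧ (Fintype.card V ≤ k + 1 ∨
      ∃ S : Finset V, S.card ≤ k - X.card ∧
        ¬ (G.induce (((X ∪ S : Finset V) : Set V)ᶜ)).Connected)) :
    (Fintype.card V) ^ 2 ≤ 150003 * k ^ 3 := by
  classical
  have hc : Conn G k := conn_of_induce h0
  have hne : 0 < Fintype.card V := by omega
  obtain ⟨v0⟩ := Fintype.card_pos_iff.1 hne
  have hk : 1 ≤ k := by
    have := (h3 {v0} (by simp)).1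
    simpa using this
  by_cases hsm : Fintype.card V ≤ k + 1
  · have h1 : (Fintype.card V) ^ 2 ≤ (k + 1) ^ 2 := Nat.pow_le_pow_left hsm 2
    have h2 : k ^ 2 ≤ k ^ 3 := Nat.pow_le_pow_right hk (by norm_num)
    nlinarith
  · apply main_bound hc _ hk
    intro x y z
    have hcard : ({x, y, z} : Finset V).card ≤ 3 := Finset.card_le_three
    obtain ⟨hXk, h | ⟨S, hS, hdis⟩⟩ := h3 {x, y, z} hcard
    · exact absurd h hsm
    · have hT : (({x, y, z} : Finset V) ∪ S).card ≤ k := by
        have := card_union_le ({x, y, z} : Finset V) S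
        omega
      obtain ⟨E, hE, hnb⟩ := frag_of_disconnected hc hT hV hdis
      refine ⟨E, hE, ?_, ?_, ?_⟩ <;> rw [hnb] <;> simp

/-- Real form with exponent `3/2`. -/
theorem real_bound {n k : ℕ} (h : n ^ 2 ≤ 150003 * k ^ 3) :
    (n : ℝ) ≤ 400 * (k : ℝ) ^ ((3 : ℝ) / 2) := by
  have hk0 : (0 : ℝ) ≤ k := Nat.cast_nonneg k
  have h1 : ((k : ℝ) ^ ((3 : ℝ) / 2)) ^ 2 = (k : ℝ) ^ 3 := by
    rw [← Real.rpow_natCast, ← Real.rpow_mul hk0]
    norm_num
  have h2 : (0 : ℝ) ≤ (k : ℝ) ^ ((3 : ℝ) / 2) := Real.rpow_nonneg hk0 _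
  have h3 : (n : ℝ) ^ 2 ≤ 150003 * (k : ℝ) ^ 3 := by exact_mod_cast h
  have h4 : (n : ℝ) ^ 2 ≤ (400 * (k : ℝ) ^ ((3 : ℝ) / 2)) ^ 2 := by
    rw [mul_pow, h1]
    have : (0 : ℝ) ≤ (k : ℝ) ^ 3 := by positivity
    nlinarith
  exact (pow_le_pow_iff_left₀ (Nat.cast_nonneg n) (by positivity) (by norm_num)).1 h4

end Main

end Pool.Agent.Helper606.CritThree
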